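import Mathlib
import Pool.Agent.H58R.Loc

set_option autoImplicit false

/-!
# A subgroup of rank one of `G_m^2` which is not a Lehmer group

All notions of the problem are spelled out for the tori `G = G_m^n`, over an arbitrary number
field `K` (a finite subextension of `AlgebraicClosure ℚ`).
-/

namespace Pool.Agent.Results.MP_187c26_nt.NotLehmer

open scoped Topology TensorProduct Nat
open Filter MvPolynomial

/-- the fixed algebraic closure -/
abbrev Qb : Type := AlgebraicClosure ℚ

/-- the group `G_m^n` of points over the algebraic closure -/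
abbrev Torus (n : ℕ) : Type := Fin n → Qbˣ

/-- the value of a polynomial at a point of `G_m^n` -/
noncomputable def val {n : ℕ} (x : Torus n) : MvPolynomial (Fin n) Qb →+* Qb :=
  MvPolynomial.eval (fun i => (x i : Qb))

/-- the zero locus in `G_m^n` of a set of polynomials -/
def zeroLocus {n : ℕ} (S : Set (MvPolynomial (Fin n) Qb)) : Set (Torus n) :=
  {x | ∀ f ∈ S, val x f = 0}

/-- the Zariski topology of `G_m^n`: the closed sets are the zero loci of sets of polynomials -/
noncomputable instance zariski (n : ℕ) : TopologicalSpace (Torus n) :=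
  TopologicalSpace.ofClosed {Z | ∃ S : Set (MvPolynomial (Fin n) Qb), Z = zeroLocus S}
    ⟨{1}, by
      ext x
      simp [zeroLocus, val]⟩
    (by
      intro A hA
      refine ⟨⋃ Z ∈ A, {f | ∀ x ∈ Z, val x f = 0}, ?_⟩
      ext x
      constructor
      · intro hx f hf
        simp only [Set.mem_iUnion] at hf
        obtain ⟨Z, hZ, hf⟩ := hf
        exact hf x (hx Z hZ)
      · intro hx Z hZ
        obtain ⟨S, rfl⟩ := hA hZ
        intro f hf
        apply hx
        simp only [Set.mem_iUnion]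
        exact ⟨_, hZ, fun y hy => hy f hf⟩)
    (by
      rintro A ⟨S, rfl⟩ B ⟨T, rfl⟩
      refine ⟨{f | ∃ s ∈ S, ∃ t ∈ T, f = s * t}, ?_⟩
      ext x
      constructor
      · rintro (hx | hx)
        · rintro f ⟨s, hs, t, ht, rfl⟩
          rw [map_mul, hx s hs, zero_mul]
        · rintro f ⟨s, hs, t, ht, rfl⟩
          rw [map_mul, hx t ht, mul_zero]
      · intro hx
        by_contra hcon
        simp only [Set.mem_union, not_or, zeroLocus, Set.mem_ofPred_eq, not_forall] at hcon
        obtain ⟨⟨s, hs, hs0⟩, ⟨t, ht, ht0⟩⟩ := hcon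
        have := hx (s * t) ⟨s, hs, t, ht, rfl⟩
        rw [map_mul] at this
        exact (mul_ne_zero hs0 ht0) this)

/-- a subvariety of `G_m^n`: an irreducible closed subset -/
def IsSubvariety {n : ℕ} (V : Set (Torus n)) : Prop := IsIrreducible V ∧ IsClosed V

/-- `Z` is defined over the field `L`: it is the zero locus of polynomials with coefficients
in `L` -/
def IsDefinedOver {n : ℕ} (L : IntermediateField ℚ Qb) (Z : Set (Torus n)) : Prop :=
  ∃ S : Set (MvPolynomial (Fin n) L), Z = zeroLocus (MvPolynomial.map (algebraMap L Qb) '' S)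

/-- the canonical height of a point of `G_m^n`: the sum of the absolute logarithmic Weil heights
of the coordinates -/
noncomputable def hG {n : ℕ} (x : Torus n) : ℝ :=
  ∑ i, NumberField.absLogHeight₁ (x i : Qb)

/-- the field `K(Γ)` generated over `K` by the coordinates of the points of `Γ` -/
noncomputable def coordField {n : ℕ} (K : IntermediateField ℚ Qb) (Γ : Subgroup (Torus n)) :
    IntermediateField ℚ Qb :=
  K ⊔ IntermediateField.adjoin ℚ {y | ∃ g ∈ Γ, ∃ i, y = (g i : Qb)}

/-- `Γ` has finite rank: `ℚ ⊗ Γ` is a finite-dimensional vector space over `ℚ` -/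
def HasFiniteRank {n : ℕ} (Γ : Subgroup (Torus n)) : Prop :=
  Module.Finite ℚ (ℚ ⊗[ℤ] (Additive Γ))

/-- `x` lies in the saturation of `Γ`: some power `x ^ N`, `N ≥ 1`, lies in `Γ` -/
def InSat {n : ℕ} (Γ : Subgroup (Torus n)) (x : Torus n) : Prop := ∃ N : ℕ, 1 ≤ N ∧ x ^ N ∈ Γ

/-- `T` is a `Γ`-torsion subvariety: a translate of a connected algebraic subgroup by a point of
the saturation of `Γ` -/
def IsTorsionSubvariety {n : ℕ} (Γ : Subgroup (Torus n)) (T : Set (Torus n)) : Prop :=
  ∃ (B : Subgroup (Torus n)) (γ : Torus n), IsClosed (B : Set (Torus n)) ∧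
    IsConnected (B : Set (Torus n)) ∧ InSat Γ γ ∧ T = (fun b => b * γ) '' (B : Set (Torus n))

/-- `V` is `Γ`-transverse: it is contained in no proper `Γ`-torsion subvariety -/
def IsTransverse {n : ℕ} (Γ : Subgroup (Torus n)) (V : Set (Torus n)) : Prop :=
  ∀ T, IsTorsionSubvariety Γ T → T ≠ Set.univ → ¬ V ⊆ T

/-- the essential minimum of `V`: the infimum of the `θ` such that the points of `V` of height at
most `θ` are Zariski dense in `V` -/
noncomputable def essMin {n : ℕ} (V : Set (Torus n)) : ℝ :=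
  sInf {θ : ℝ | V ⊆ closure {x | x ∈ V ∧ hG x ≤ θ}}

/-- restriction of polynomials to functions on `Z` -/
noncomputable def restrict {n : ℕ} (Z : Set (Torus n)) :
    MvPolynomial (Fin n) Qb →ₗ[Qb] (Z → Qb) where
  toFun f := fun z => val z.1 f
  map_add' f g := by
    funext z
    simp
  map_smul' c f := by
    funext z
    simp [val, MvPolynomial.smul_eval]

/-- the Hilbert function of the closure of `Z` in `(ℙ¹)^n` for the line bundle `O(1, …, 1)`:
the dimension of the space of the functions on `Z` which are restrictions of polynomials of degree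
at most `d` in each variable (i.e. of global sections of `O(d, …, d)`) -/
noncomputable def hilb {n : ℕ} (Z : Set (Torus n)) (d : ℕ) : ℕ :=
  Module.finrank Qb ((MvPolynomial.restrictDegree (Fin n) Qb d).map (restrict Z))

/-- `Z` is equidimensional of dimension `r`: all its irreducible components have (Krull)
dimension `r` -/
def IsEquidimensional {n : ℕ} (Z : Set (Torus n)) (r : ℕ) : Prop :=
  ∀ C ∈ irreducibleComponents Z, topologicalKrullDim C = r

/-- the equidimensional closed set `Z` of dimension `r` has degree `D` with respect to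
`O(1, …, 1)`, i.e. its Hilbert function is `D d ^ r / r! + o (d ^ r)` -/
def HasDegree {n : ℕ} (Z : Set (Torus n)) (r : ℕ) (D : ℝ) : Prop :=
  Tendsto (fun d : ℕ => (r ! : ℝ) * (hilb Z d : ℝ) / (d : ℝ) ^ r) atTop (𝓝 D)

/-- the obstruction index `ω_L(V)`: the minimum of `(deg Z) ^ (1 / (n - dim Z))` over the
equidimensional closed subsets `Z ≠ G_m^n` defined over `L` containing `V` -/
noncomputable def obstructionIndex {n : ℕ} (L : IntermediateField ℚ Qb) (V : Set (Torus n)) : ℝ :=
  sInf {w : ℝ | ∃ (Z : Set (Torus n)) (r : ℕ) (D : ℝ), IsClosed Z ∧ Z ≠ Set.univ ∧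
    IsDefinedOver L Z ∧ V ⊆ Z ∧ IsEquidimensional Z r ∧ HasDegree Z r D ∧
    w = D ^ (1 / ((n : ℝ) - r))}

/-- `Γ` is a Lehmer group (over the number field `K`) -/
def IsLehmerGroup {n : ℕ} (K : IntermediateField ℚ Qb) (Γ : Subgroup (Torus n)) : Prop :=
  ∃ c : ℝ, 0 < c ∧ ∀ V : Set (Torus n), IsSubvariety V → V ≠ Set.univ → IsTransverse Γ V →
    c ≤ obstructionIndex (coordField K Γ) V * essMin V

/-! ## Closed sets -/

lemma isClosed_iff' {n : ℕ} (Z : Set (Torus n)) :
    IsClosed Z ↔ ∃ S : Set (MvPolynomial (Fin n) Qb), Z = zeroLocus S := by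
  rw [← isOpen_compl_iff]
  show Zᶜᶜ ∈ {Z | ∃ S : Set (MvPolynomial (Fin n) Qb), Z = zeroLocus S} ↔ _
  rw [compl_compl]
  rfl

/-- the character of `B` given by a tuple of exponents -/
noncomputable def chr {n : ℕ} (B : Subgroup (Torus n)) (m : Fin n →₀ ℕ) : B →* Qb where
  toFun b := ∏ i, ((b.1 i : Qbˣ) : Qb) ^ m i
  map_one' := by simp
  map_mul' b b' := by
    simp [mul_pow, Finset.prod_mul_distrib]

/-- a proper closed subgroup is contained in the kernel of a nontrivial character -/
lemma exists_char {n : ℕ} (B : Subgroup (Torus n)) (hB : IsClosed (B : Set (Torus n)))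
    (hne : (B : Set (Torus n)) ≠ Set.univ) :
    ∃ m m' : Fin n →₀ ℕ, m ≠ m' ∧ ∀ b ∈ B, ∏ i, (b i) ^ m i = ∏ i, (b i) ^ m' i := by
  obtain ⟨S, hS⟩ := (isClosed_iff' _).mp hB
  obtain ⟨x, hx⟩ := (Set.ne_univ_iff_exists_notMem _).mp hne
  rw [hS] at hx
  simp only [zeroLocus, Set.mem_ofPred_eq, not_forall] at hx
  obtain ⟨f, hf, hfx⟩ := hx
  have hf0 : f ≠ 0 := by
    rintro rfl
    simp at hfx
  by_contra hcon
  push Not at hcon
  have hinj : Function.Injective (fun m : f.support => chr B m.1) := by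
    intro m m' h
    by_contra hmm
    obtain ⟨b, hb, hb'⟩ := hcon m.1 m'.1 (fun e => hmm (Subtype.ext e))
    apply hb'
    have := DFunLike.congr_fun h ⟨b, hb⟩
    simp only [chr, MonoidHom.coe_mk, OneHom.coe_mk] at this
    apply Units.ext
    push_cast
    exact this
  have hli := (linearIndependent_monoidHom B Qb).comp _ hinj
  rw [Fintype.linearIndependent_iff] at hli
  have h0 := hli (fun m => f.coeff m.1) (by
    funext b
    have hb : val b.1 f = 0 := by
      have : (b.1 : Torus n) ∈ (B : Set (Torus n)) := b.2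
      rw [hS] at this
      exact this f hf
    rw [val, MvPolynomial.eval_eq'] at hb
    simp only [Function.comp, Finset.sum_apply, Pi.smul_apply, smul_eq_mul, chr, MonoidHom.coe_mk,
      OneHom.coe_mk, Pi.zero_apply]
    rw [← hb, ← Finset.sum_attach f.support]
    rfl)
  apply hf0
  ext m
  by_cases hm : m ∈ f.support
  · simpa using h0 ⟨m, hm⟩
  · simpa using hm

/-! ## A topological lemma -/

/-- an infinite space in which points are closed and proper closed sets are finite is irreducible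
of Krull dimension one -/
lemma dim_one_of_finite {X : Type*} [TopologicalSpace X] [Infinite X]
    (h1 : ∀ x : X, IsClosed ({x} : Set X))
    (h2 : ∀ C : Set X, IsClosed C → C ≠ Set.univ → C.Finite) :
    IrreducibleSpace X ∧ topologicalKrullDim X = 1 := by
  have hpre : IsPreirreducible (Set.univ : Set X) := by
    rw [isPreirreducible_iff_isClosed_union_isClosed]
    intro z₁ z₂ hz₁ hz₂ h
    by_contra hcon
    simp only [Set.univ_subset_iff, not_or] at hcon h
    have := (h2 z₁ hz₁ hcon.1).union (h2 z₂ hz₂ hcon.2)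
    rw [h] at this
    exact Set.infinite_univ this
  have hirr : IrreducibleSpace X :=
    { isPreirreducible_univ := hpre
      toNonempty := inferInstance }
  have : T1Space X := ⟨h1⟩
  refine ⟨hirr, le_antisymm ?_ ?_⟩
  · show Order.krullDim (TopologicalSpace.IrreducibleCloseds X) ≤ 1
    rw [Order.krullDim_le_one_iff]
    intro s
    by_cases hs : (s : Set X) = Set.univ
    · right
      intro t _ y _
      have : y ∈ (s : Set X) := by rw [hs]; trivial
      exact this
    · left
      have hfin := h2 _ s.isClosed hs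
      obtain ⟨a, ha⟩ := s.isIrreducible.1
      have hsub : (s : Set X) ⊆ {a} := by
        have h3 := isPreirreducible_iff_isClosed_union_isClosed.mp s.isIrreducible.2 {a}
          ((s : Set X) \ {a}) isClosed_singleton (hfin.subset Set.sdiff_subset).isClosed (by
            intro y hy
            by_cases hya : y = a
            · left; exact hya
            · right; exact ⟨hy, hya⟩)
        rcases h3 with h3 | h3
        · exact h3
        · exact absurd rfl (h3 ha).2
      intro t ht y hy
      have hya : y = a := hsub hy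
      obtain ⟨z, hz⟩ := t.isIrreducible.1
      have hza : z = a := hsub (ht hz)
      rw [hya, ← hza]
      exact hz
  · show 1 ≤ Order.krullDim (TopologicalSpace.IrreducibleCloseds X)
    rw [Order.one_le_krullDim_iff]
    obtain ⟨a, b, hab⟩ := exists_pair_ne X
    refine ⟨⟨{a}, isIrreducible_singleton, h1 a⟩,
      ⟨Set.univ, IrreducibleSpace.isIrreducible_univ X, isClosed_univ⟩, ?_⟩
    rw [lt_iff_le_not_ge]
    constructor
    · intro y _
      trivial
    · intro h
      have : b ∈ ({a} : Set X) := h (Set.mem_univ b)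
      exact hab (Eq.symm this)

/-! ## The fibres of the second projection -/

/-- the set `y = b` in `G_m^2` -/
def fib (b : Qbˣ) : Set (Torus 2) := {x | x 1 = b}

/-- the restriction to `y = b` of a polynomial -/
noncomputable def res (b : Qbˣ) : MvPolynomial (Fin 2) Qb →ₐ[Qb] Polynomial Qb :=
  MvPolynomial.aeval ![Polynomial.X, Polynomial.C (b : Qb)]

lemma eval_res (b : Qbˣ) (x : Torus 2) (hx : x ∈ fib b) (f : MvPolynomial (Fin 2) Qb) :
    (res b f).eval (x 0 : Qb) = val x f := by
  have hx' : x 1 = b := hx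
  have h : (Polynomial.evalRingHom (x 0 : Qb)).comp (res b).toRingHom = val x := by
    apply MvPolynomial.ringHom_ext
    · intro r
      simp [res, val]
    · intro i
      fin_cases i
      · simp [res, val]
      · simp [res, val, hx']
  exact RingHom.congr_fun h f

lemma isClosed_fib (b : Qbˣ) : IsClosed (fib b) := by
  rw [isClosed_iff']
  refine ⟨{MvPolynomial.X 1 - MvPolynomial.C (b : Qb)}, ?_⟩
  ext x
  simp [fib, zeroLocus, val, sub_eq_zero, Units.ext_iff]

lemma definedOver_fib (L : IntermediateField ℚ Qb) (b : Qbˣ) (hb : (b : Qb) ∈ L) :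
    IsDefinedOver L (fib b) := by
  refine ⟨{MvPolynomial.X 1 - MvPolynomial.C ⟨b, hb⟩}, ?_⟩
  ext x
  simp [fib, zeroLocus, val, sub_eq_zero, Units.ext_iff]

lemma isClosed_point {n : ℕ} (P : Torus n) : IsClosed ({P} : Set (Torus n)) := by
  rw [isClosed_iff']
  refine ⟨Set.range fun i => MvPolynomial.X i - MvPolynomial.C (P i : Qb), ?_⟩
  ext x
  simp [zeroLocus, val, sub_eq_zero, Units.ext_iff, funext_iff]

/-- the points of the fibre -/
def pt (b t : Qbˣ) : fib b := ⟨![t, b], by simp [fib]⟩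

lemma pt_injective (b : Qbˣ) : Function.Injective (pt b) := by
  intro t t' h
  have := congrArg (fun z : fib b => z.1 0) h
  simpa [pt] using this

instance : Infinite Qbˣ := by
  have h : Function.Injective (fun n : ℕ => Units.mk0 ((n : Qb) + 1) (Nat.cast_add_one_ne_zero n)) := by
    intro m n h
    have := congrArg (fun u : Qbˣ => (u : Qb)) h
    simp only [Units.val_mk0, add_left_inj, Nat.cast_inj] at this
    exact this
  exact Infinite.of_injective _ h

instance (b : Qbˣ) : Infinite (fib b) := Infinite.of_injective _ (pt_injective b)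

lemma finite_of_closed (b : Qbˣ) (C : Set (fib b)) (hC : IsClosed C) (hne : C ≠ Set.univ) :
    C.Finite := by
  classical
  obtain ⟨W, hW, rfl⟩ := isClosed_induced_iff.mp hC
  obtain ⟨S, rfl⟩ := (isClosed_iff' _).mp hW
  obtain ⟨x, hx⟩ := (Set.ne_univ_iff_exists_notMem _).mp hne
  simp only [zeroLocus, Set.mem_preimage, Set.mem_ofPred_eq, not_forall] at hx
  obtain ⟨f, hf, hfx⟩ := hx
  have hg : res b f ≠ 0 := by
    intro h
    apply hfx
    rw [← eval_res b x.1 x.2, h, Polynomial.eval_zero]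
  have hfin : {y : fib b | (res b f).eval (y.1 0 : Qb) = 0}.Finite := by
    have h1 : ((res b f).roots.toFinset : Set Qb).Finite := Finset.finite_toSet _
    refine Set.Finite.of_finite_image (f := fun y : fib b => (y.1 0 : Qb)) (h1.subset ?_) ?_
    · rintro _ ⟨y, hy, rfl⟩
      simp only [Multiset.mem_toFinset, Finset.mem_coe]
      exact (Polynomial.mem_roots hg).mpr hy
    · intro y _ y' _ hyy
      have e0 : y.1 0 = y'.1 0 := Units.ext hyy
      have e1 : y.1 1 = y'.1 1 := by
        rw [show y.1 1 = b from y.2, show y'.1 1 = b from y'.2]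
      apply Subtype.ext
      funext i
      fin_cases i
      · exact e0
      · exact e1
  refine hfin.subset ?_
  intro y hy
  show (res b f).eval (y.1 0 : Qb) = 0
  rw [eval_res b y.1 y.2]
  exact hy f hf

lemma equidim_fib (b : Qbˣ) : IsEquidimensional (fib b) 1 := by
  have h := dim_one_of_finite (X := fib b)
    (fun x => by
      have h := (isClosed_point x.1).preimage (continuous_subtype_val (p := fun y => y ∈ fib b))
      convert h using 1
      ext y
      simp [Subtype.ext_iff])
    (finite_of_closed b)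
  have := h.1
  intro C hC
  rw [irreducibleComponents_eq_singleton] at hC
  have hCu : C = Set.univ := hC
  subst hCu
  rw [IsHomeomorph.topologicalKrullDim_eq _ (Homeomorph.Set.univ (fib b)).isHomeomorph, h.2]
  rfl

/-- polynomials in one variable as functions on the fibre -/
noncomputable def psi (b : Qbˣ) : Polynomial Qb →ₗ[Qb] (fib b → Qb) where
  toFun g := fun z => g.eval (z.1 0 : Qb)
  map_add' f g := by
    funext z
    simp
  map_smul' c f := by
    funext z
    simp

lemma psi_injective (b : Qbˣ) : Function.Injective (psi b) := by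
  rw [← LinearMap.ker_eq_bot, LinearMap.ker_eq_bot']
  intro g hg
  by_contra hne
  have h1 : (Set.range fun t : Qbˣ => (t : Qb)) ⊆ {x | g.IsRoot x} := by
    rintro _ ⟨t, rfl⟩
    have := congrFun hg (pt b t)
    simpa [psi, pt] using this
  have h2 : ({x | g.IsRoot x} : Set Qb).Infinite :=
    (Set.infinite_range_of_injective (fun t t' h => Units.ext h)).mono h1
  exact hne (Polynomial.eq_zero_of_infinite_isRoot g h2)

lemma map_restrictDegree (b : Qbˣ) (d : ℕ) :
    (MvPolynomial.restrictDegree (Fin 2) Qb d).map (restrict (fib b)) =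
      (Polynomial.degreeLT Qb (d + 1)).map (psi b) := by
  have key : ∀ f : MvPolynomial (Fin 2) Qb, restrict (fib b) f = psi b (res b f) := by
    intro f
    funext z
    exact (eval_res b z.1 z.2 f).symm
  apply le_antisymm
  · rintro _ ⟨f, hf, rfl⟩
    refine ⟨res b f, ?_, (key f).symm⟩
    rw [SetLike.mem_coe, MvPolynomial.mem_restrictDegree] at hf
    rw [SetLike.mem_coe, Polynomial.mem_degreeLT]
    rw [res, MvPolynomial.aeval_eq_eval₂Hom, MvPolynomial.coe_eval₂Hom, MvPolynomial.eval₂_eq']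
    refine lt_of_le_of_lt (Polynomial.degree_sum_le _ _) ?_
    rw [Finset.sup_lt_iff (by exact WithBot.bot_lt_coe _)]
    intro m hm
    have h0 := hf m hm 0
    simp only [Fin.prod_univ_two, Matrix.cons_val_zero, Matrix.cons_val_one]
    have : (algebraMap Qb (Polynomial Qb)) (MvPolynomial.coeff m f) *
        (Polynomial.X ^ m 0 * Polynomial.C (b : Qb) ^ m 1) =
        Polynomial.C (MvPolynomial.coeff m f * (b : Qb) ^ m 1) * Polynomial.X ^ m 0 := by
      rw [Polynomial.algebraMap_apply, Algebra.algebraMap_self, RingHom.id_apply, map_mul, map_pow]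
      ring
    rw [this]
    refine lt_of_le_of_lt (Polynomial.degree_C_mul_X_pow_le _ _) ?_
    exact_mod_cast Nat.lt_succ_of_le h0
  · rintro _ ⟨g, hg, rfl⟩
    rw [SetLike.mem_coe, Polynomial.mem_degreeLT] at hg
    refine ⟨Polynomial.aeval (MvPolynomial.X 0) g, ?_, ?_⟩
    · rw [SetLike.mem_coe, Polynomial.aeval_eq_sum_range' (n := d + 1) (by
        rcases eq_or_ne g 0 with rfl | hg0
        · simp
        · exact (Polynomial.natDegree_lt_iff_degree_lt hg0).mpr hg)]
      refine Submodule.sum_mem _ fun i hi => Submodule.smul_mem _ _ ?_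
      rw [MvPolynomial.mem_restrictDegree]
      intro s hs j
      rw [MvPolynomial.X_pow_eq_monomial] at hs
      have hs' := MvPolynomial.support_monomial_subset hs
      rw [Finset.mem_singleton] at hs'
      rw [hs', Finsupp.single_apply]
      split_ifs
      · exact Nat.lt_succ_iff.mp (Finset.mem_range.mp hi)
      · exact Nat.zero_le _
    · rw [key]
      congr 1
      rw [res, ← Polynomial.aeval_algHom_apply, MvPolynomial.aeval_X]
      simp

lemma hilb_fib (b : Qbˣ) (d : ℕ) : hilb (fib b) d = d + 1 := by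
  unfold hilb
  rw [map_restrictDegree,
    ← (Submodule.equivMapOfInjective (psi b) (psi_injective b) _).finrank_eq,
    (Polynomial.degreeLTEquiv Qb (d + 1)).finrank_eq]
  simp

lemma hasDegree_fib (b : Qbˣ) : HasDegree (fib b) 1 1 := by
  unfold HasDegree
  simp only [hilb_fib, Nat.factorial_one, Nat.cast_one, one_mul, pow_one, Nat.cast_add]
  have h : Tendsto (fun d : ℕ => 1 + 1 / (d : ℝ)) atTop (𝓝 (1 + 0)) :=
    tendsto_const_nhds.add tendsto_one_div_atTop_nhds_zero_nat
  rw [add_zero] at h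
  refine h.congr' ?_
  filter_upwards [eventually_gt_atTop 0] with d hd
  field_simp

/-! ## Points -/

lemma essMin_point {n : ℕ} (P : Torus n) : essMin {P} = hG P := by
  have h : {θ : ℝ | ({P} : Set (Torus n)) ⊆ closure {x | x ∈ ({P} : Set (Torus n)) ∧ hG x ≤ θ}} =
      Set.Ici (hG P) := by
    ext θ
    constructor
    · intro hθ
      by_contra hcon
      have hlt : θ < hG P := not_le.mp hcon
      have he : {x | x ∈ ({P} : Set (Torus n)) ∧ hG x ≤ θ} = ∅ := by
        rw [Set.eq_empty_iff_forall_notMem]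
        rintro x ⟨hx, hx'⟩
        rw [Set.mem_singleton_iff.mp hx] at hx'
        exact absurd hx' (not_le.mpr hlt)
      have hθ' : ({P} : Set (Torus n)) ⊆ closure {x | x ∈ ({P} : Set (Torus n)) ∧ hG x ≤ θ} := hθ
      rw [he, closure_empty] at hθ'
      exact hθ' (Set.mem_singleton P)
    · intro hθ
      refine subset_trans ?_ subset_closure
      intro x hx
      refine ⟨hx, ?_⟩
      rw [Set.mem_singleton_iff.mp hx]
      exact hθ
  rw [essMin, h, csInf_Ici]

lemma obstructionIndex_nonneg {n : ℕ} (L : IntermediateField ℚ Qb) (V : Set (Torus n)) :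
    0 ≤ obstructionIndex L V := by
  apply Real.sInf_nonneg
  rintro w ⟨Z, r, D, _, _, _, _, _, hD, rfl⟩
  apply Real.rpow_nonneg
  exact ge_of_tendsto' hD (fun d => by positivity)

lemma obstructionIndex_le_one (L : IntermediateField ℚ Qb) (P : Torus 2)
    (h : (P 1 : Qb) ∈ L) : obstructionIndex L {P} ≤ 1 := by
  apply csInf_le
  · refine ⟨0, ?_⟩
    rintro w ⟨Z, r, D, _, _, _, _, _, hD, rfl⟩
    apply Real.rpow_nonneg
    exact ge_of_tendsto' hD (fun d => by positivity)
  · refine ⟨fib (P 1), 1, 1, isClosed_fib _, ?_, definedOver_fib L _ h, ?_, equidim_fib _,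
      hasDegree_fib _, by simp⟩
    · intro he
      obtain ⟨t, ht⟩ := exists_ne (P 1)
      have : (![t, t] : Torus 2) ∈ fib (P 1) := by rw [he]; trivial
      exact ht (by simpa [fib] using this)
    · intro x hx
      rw [Set.mem_singleton_iff.mp hx]
      rfl

/-! ## Radicals -/

lemma exists_sqrt (u : Qbˣ) : ∃ v : Qbˣ, v ^ 2 = u := by
  obtain ⟨z, hz⟩ := IsAlgClosed.exists_pow_nat_eq (u : Qb) (n := 2) (by norm_num)
  have hz0 : z ≠ 0 := by
    rintro rfl
    exact u.ne_zero (by rw [← hz]; norm_num)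
  exact ⟨Units.mk0 z hz0, Units.ext (by push_cast; exact hz)⟩

/-- a square root -/
noncomputable def sq (u : Qbˣ) : Qbˣ := (exists_sqrt u).choose

lemma sq_sq (u : Qbˣ) : (sq u) ^ 2 = u := (exists_sqrt u).choose_spec

lemma iterate_sq_pow (u : Qbˣ) (k : ℕ) : (sq^[k] u) ^ (2 ^ k) = u := by
  induction k with
  | zero => simp
  | succ k ih => rw [Function.iterate_succ_apply', pow_succ', pow_mul, sq_sq, ih]

/-- the numbers `2` and `3` as points of `G_m` -/
noncomputable def two : Qbˣ := Units.mk0 (2 : Qb) (by norm_num)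

/-- the number `3` -/
noncomputable def three : Qbˣ := Units.mk0 (3 : Qb) (by norm_num)

lemma indep (u v : ℤ) (h : three ^ u * two ^ v = 1) : u = 0 ∧ v = 0 := by
  have h1 : ((3 : ℚ) ^ u * (2 : ℚ) ^ v : ℚ) = 1 := by
    have := congrArg (fun x : Qbˣ => (x : Qb)) h
    simp only [Units.val_mul, Units.val_zpow_eq_zpow_val, three, two, Units.val_mk0,
      Units.val_one] at this
    have h2 : (algebraMap ℚ Qb) ((3 : ℚ) ^ u * (2 : ℚ) ^ v) = algebraMap ℚ Qb 1 := by
      rw [map_mul, map_zpow₀, map_zpow₀, map_one, map_ofNat, map_ofNat]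
      exact this
    exact (algebraMap ℚ Qb).injective h2
  have h3 := congrArg (padicValRat 3) h1
  have h2 := congrArg (padicValRat 2) h1
  have hf3 : Fact (Nat.Prime 3) := ⟨Nat.prime_three⟩
  rw [padicValRat.mul (zpow_ne_zero _ (by norm_num)) (zpow_ne_zero _ (by norm_num)),
    padicValRat.zpow, padicValRat.zpow, padicValRat.one] at h3 h2
  have e1 : padicValRat 3 (3 : ℚ) = 1 := by exact_mod_cast padicValRat.self (p := 3) (by norm_num)
  have e2 : padicValRat 2 (2 : ℚ) = 1 := by exact_mod_cast padicValRat.self (p := 2) (by norm_num)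
  have e3 : padicValRat 3 (2 : ℚ) = 0 := by
    have : padicValNat 3 2 = 0 := padicValNat.eq_zero_of_not_dvd (by norm_num)
    exact_mod_cast congrArg (Nat.cast : ℕ → ℤ) this
  have e4 : padicValRat 2 (3 : ℚ) = 0 := by
    have : padicValNat 2 3 = 0 := padicValNat.eq_zero_of_not_dvd (by norm_num)
    exact_mod_cast congrArg (Nat.cast : ℕ → ℤ) this
  rw [e1, e3] at h3
  rw [e2, e4] at h2
  omega

/-! ## The group `Γ` -/

/-- the group generated by the points `(2 ^ (1 / 2 ^ k), 1)` -/
noncomputable def Gam : Subgroup (Torus 2) :=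
  Subgroup.closure (Set.range fun k : ℕ => (![sq^[k] two, 1] : Torus 2))

lemma Gam_pow (g : Torus 2) (hg : g ∈ Gam) :
    ∃ (k : ℕ) (s : ℤ), g ^ (2 ^ k) = (![two, 1] : Torus 2) ^ s := by
  induction hg using Subgroup.closure_induction with
  | mem x hx =>
    obtain ⟨k, rfl⟩ := hx
    refine ⟨k, 1, ?_⟩
    rw [zpow_one]
    funext i
    fin_cases i
    · simp [iterate_sq_pow]
    · simp
  | one => exact ⟨0, 0, by simp⟩
  | mul x y _ _ hx hy =>
    obtain ⟨k, s, hk⟩ := hx
    obtain ⟨l, t, hl⟩ := hy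
    refine ⟨k + l, s * 2 ^ l + t * 2 ^ k, ?_⟩
    have e1 : x ^ (2 ^ (k + l)) = (![two, 1] : Torus 2) ^ (s * 2 ^ l) := by
      rw [zpow_mul, ← hk, pow_add, pow_mul]
      norm_cast
    have e2 : y ^ (2 ^ (k + l)) = (![two, 1] : Torus 2) ^ (t * 2 ^ k) := by
      rw [zpow_mul, ← hl, add_comm, pow_add, pow_mul]
      norm_cast
    rw [mul_pow, zpow_add, e1, e2]
  | inv x _ hx =>
    obtain ⟨k, s, hk⟩ := hx
    exact ⟨k, -s, by rw [inv_pow, hk, zpow_neg]⟩

lemma sat_pow (g : Torus 2) (hg : InSat Gam g) :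
    ∃ (N : ℕ) (s : ℤ), 1 ≤ N ∧ g ^ N = (![two, 1] : Torus 2) ^ s := by
  obtain ⟨N, hN, h⟩ := hg
  obtain ⟨k, s, hk⟩ := Gam_pow _ h
  exact ⟨N * 2 ^ k, s, Nat.one_le_iff_ne_zero.mpr (by positivity), by rw [pow_mul, hk]⟩

lemma gam_finiteRank : HasFiniteRank Gam := by
  have hg0 : (![two, 1] : Torus 2) ∈ Gam := Subgroup.subset_closure ⟨0, by simp⟩
  have key : ∀ z : ℚ ⊗[ℤ] (Additive Gam),
      z ∈ Submodule.span ℚ {(1 : ℚ) ⊗ₜ[ℤ] (Additive.ofMul (⟨_, hg0⟩ : Gam))} := by
    intro z
    induction z using TensorProduct.induction_on with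
    | zero => exact Submodule.zero_mem _
    | add x y hx hy => exact Submodule.add_mem _ hx hy
    | tmul q γ =>
      obtain ⟨k, s, hk⟩ := Gam_pow γ.toMul.1 γ.toMul.2
      have h1 : ((2 : ℤ) ^ k) • γ = s • (Additive.ofMul (⟨_, hg0⟩ : Gam)) := by
        apply Additive.toMul.injective
        apply Subtype.ext
        have e1 : (Additive.toMul (((2 : ℤ) ^ k) • γ)).1 = γ.toMul.1 ^ (2 ^ k) := by
          rw [toMul_zsmul]
          norm_cast
        have e2 : (Additive.toMul (s • (Additive.ofMul (⟨_, hg0⟩ : Gam)))).1 =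
            (![two, 1] : Torus 2) ^ s := by
          rw [toMul_zsmul]
          rfl
        rw [e1, e2, hk]
      have h2 : q ⊗ₜ[ℤ] γ = (q * s / 2 ^ k) •
          ((1 : ℚ) ⊗ₜ[ℤ] (Additive.ofMul (⟨_, hg0⟩ : Gam))) := by
        have h3 : q ⊗ₜ[ℤ] γ = (((2 : ℤ) ^ k) • (q / 2 ^ k)) ⊗ₜ[ℤ] γ := by
          congr 1
          rw [zsmul_eq_mul]
          push_cast
          field_simp
        have h4 : (q / 2 ^ k) ⊗ₜ[ℤ] (s • (Additive.ofMul (⟨_, hg0⟩ : Gam))) =
            (s • (q / 2 ^ k)) ⊗ₜ[ℤ] (Additive.ofMul (⟨_, hg0⟩ : Gam)) := by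
          have h5 := TensorProduct.smul_tmul (R := ℤ) (R' := ℤ) (M := ℚ) (N := Additive Gam) s
            (q / 2 ^ k) (Additive.ofMul (⟨_, hg0⟩ : Gam))
          rw [h5]
        rw [h3, TensorProduct.smul_tmul, h1, h4, TensorProduct.smul_tmul']
        congr 1
        rw [zsmul_eq_mul, smul_eq_mul]
        ring
      rw [h2]
      exact Submodule.smul_mem _ _ (Submodule.mem_span_singleton_self _)
  refine ⟨⟨{(1 : ℚ) ⊗ₜ[ℤ] (Additive.ofMul (⟨_, hg0⟩ : Gam))}, ?_⟩⟩
  rw [Finset.coe_singleton, eq_top_iff]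
  intro z _
  exact key z

/-- the point `(3 ^ (1 / 2 ^ k), 2 ^ (1 / 2 ^ k))` -/
noncomputable def P (k : ℕ) : Torus 2 := ![sq^[k] three, sq^[k] two]

lemma transverse_P (k : ℕ) : IsTransverse Gam {P k} := by
  rintro T ⟨B, γ, hB, -, hγ, rfl⟩ hT hP
  have hne : (B : Set (Torus 2)) ≠ Set.univ := by
    intro h
    apply hT
    rw [h]
    ext x
    simp only [Set.mem_image, Set.mem_univ, true_and, iff_true]
    exact ⟨x * γ⁻¹, by group⟩
  obtain ⟨m, m', hmm, hchar⟩ := exists_char B hB hne
  obtain ⟨b, hb, hbP⟩ := hP (Set.mem_singleton _)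
  obtain ⟨N, s, hN, hs⟩ := sat_pow γ hγ
  -- the character
  let χ : Torus 2 →* Qbˣ :=
    { toFun := fun x => x 0 ^ ((m 0 : ℤ) - m' 0) * x 1 ^ ((m 1 : ℤ) - m' 1)
      map_one' := by simp
      map_mul' := fun x y => by
        simp only [Pi.mul_apply, mul_zpow]
        exact mul_mul_mul_comm _ _ _ _ }
  have hχb : χ b = 1 := by
    have h := hchar b hb
    rw [Fin.prod_univ_two, Fin.prod_univ_two] at h
    show b 0 ^ ((m 0 : ℤ) - m' 0) * b 1 ^ ((m 1 : ℤ) - m' 1) = 1
    rw [zpow_sub, zpow_sub, zpow_natCast, zpow_natCast, zpow_natCast, zpow_natCast,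
      mul_mul_mul_comm, h, ← mul_inv, mul_inv_cancel]
  have hχ : χ (P k) = χ γ := by
    rw [← hbP, map_mul, hχb, one_mul]
  have h1 : χ (![three, two] : Torus 2) = χ (P k) ^ (2 ^ k) := by
    rw [← map_pow]
    congr 1
    funext i
    fin_cases i
    · simp [P, iterate_sq_pow]
    · simp [P, iterate_sq_pow]
  have h2 : χ (![three, two] : Torus 2) ^ N = χ ((![two, 1] : Torus 2) ^ s) ^ (2 ^ k) := by
    rw [h1, hχ, ← hs, map_pow, ← pow_mul, ← pow_mul, mul_comm]
  have h3 : χ (![three, two] : Torus 2) =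
      three ^ ((m 0 : ℤ) - m' 0) * two ^ ((m 1 : ℤ) - m' 1) := rfl
  have h4 : χ ((![two, 1] : Torus 2) ^ s) = two ^ (((m 0 : ℤ) - m' 0) * s) := by
    rw [map_zpow]
    show (two ^ ((m 0 : ℤ) - m' 0) * (1 : Qbˣ) ^ ((m 1 : ℤ) - m' 1)) ^ s = _
    rw [one_zpow, mul_one, ← zpow_mul]
  rw [h3, h4, mul_pow, ← zpow_natCast, ← zpow_natCast, ← zpow_natCast, ← zpow_mul, ← zpow_mul,
    ← zpow_mul] at h2
  have h5 := indep (((m 0 : ℤ) - m' 0) * N)
    (((m 1 : ℤ) - m' 1) * N - ((m 0 : ℤ) - m' 0) * s * ((2 ^ k : ℕ) : ℤ)) (by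
      rw [zpow_sub, ← mul_assoc, h2, mul_inv_cancel])
  have hN' : (N : ℤ) ≠ 0 := by exact_mod_cast (Nat.one_le_iff_ne_zero.mp hN)
  have ha0 : ((m 0 : ℤ) - m' 0) = 0 := (mul_eq_zero.mp h5.1).resolve_right hN'
  have ha1 : ((m 1 : ℤ) - m' 1) = 0 := by
    have := h5.2
    rw [ha0, zero_mul, zero_mul, sub_zero] at this
    exact (mul_eq_zero.mp this).resolve_right hN'
  apply hmm
  ext i
  fin_cases i
  · show m 0 = m' 0
    omega
  · show m 1 = m' 1
    omega

lemma hG_P (k : ℕ) : hG (P k) =
    (Pool.Agent.H58P.ht (3 : Qb) + Pool.Agent.H58P.ht (2 : Qb)) / 2 ^ k := by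
  have h : ∀ u : Qbˣ, NumberField.absLogHeight₁ ((sq^[k] u : Qbˣ) : Qb) =
      Pool.Agent.H58P.ht (u : Qb) / 2 ^ k := by
    intro u
    rw [Pool.Agent.H58P.absLogHeight₁_eq, eq_div_iff (by positivity)]
    have h1 := Pool.Agent.H58B.ht_pow ((sq^[k] u : Qbˣ) : Qb) (2 ^ k)
    rw [← Units.val_pow_eq_pow_val, iterate_sq_pow] at h1
    rw [h1]
    push_cast
    ring
  rw [hG, Fin.sum_univ_two]
  show NumberField.absLogHeight₁ ((sq^[k] three : Qbˣ) : Qb) +
    NumberField.absLogHeight₁ ((sq^[k] two : Qbˣ) : Qb) = _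
  rw [h, h, add_div]
  rfl

/-- **Theorem.** For every number field `K` there is a subgroup `Γ` of finite rank of `G_m^2` which
is not a Lehmer group: the group `Γ` generated by the points `(2 ^ (1 / 2 ^ k), 1)`. -/
theorem result (K : IntermediateField ℚ Qb) [FiniteDimensional ℚ K] :
    ∃ Γ : Subgroup (Torus 2), HasFiniteRank Γ ∧ ¬ IsLehmerGroup K Γ := by
  refine ⟨Gam, gam_finiteRank, ?_⟩
  rintro ⟨c, hc, h⟩
  set C := Pool.Agent.H58P.ht (3 : Qb) + Pool.Agent.H58P.ht (2 : Qb) with hC
  obtain ⟨k, hk⟩ := pow_unbounded_of_one_lt (C / c) (one_lt_two)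
  have h1 := h {P k} ⟨isIrreducible_singleton, isClosed_point _⟩ (by
    intro he
    obtain ⟨t, ht⟩ := exists_ne (P k 0)
    have : (![t, t] : Torus 2) ∈ ({P k} : Set (Torus 2)) := by rw [he]; trivial
    apply ht
    rw [← Set.mem_singleton_iff.mp this]
    rfl) (transverse_P k)
  have hmem : ((P k 1 : Qbˣ) : Qb) ∈ coordField K Gam := by
    have h2 : ((P k 1 : Qbˣ) : Qb) ∈
        IntermediateField.adjoin ℚ {y | ∃ g ∈ Gam, ∃ i, y = (g i : Qb)} :=
      IntermediateField.subset_adjoin ℚ _
        ⟨![sq^[k] two, 1], Subgroup.subset_closure ⟨k, rfl⟩, 0, rfl⟩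
    exact (le_sup_right : _ ≤ coordField K Gam) h2
  have h2 := obstructionIndex_le_one (coordField K Gam) (P k) hmem
  have h3 : essMin {P k} = C / 2 ^ k := by rw [essMin_point, hG_P]
  have hC0 : 0 ≤ C := add_nonneg (Pool.Agent.H58R.ht_nonneg _) (Pool.Agent.H58R.ht_nonneg _)
  have h4 : C / 2 ^ k < c := by
    rw [div_lt_iff₀ (by positivity)]
    rw [div_lt_iff₀ hc] at hk
    linarith
  have h5 : obstructionIndex (coordField K Gam) {P k} * essMin {P k} ≤ 1 * (C / 2 ^ k) := by
    rw [h3]
    exact mul_le_mul_of_nonneg_right h2 (by positivity)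
  linarith

end Pool.Agent.Results.MP_187c26_nt.NotLehmer
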